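import Mathlib

/-!
# Words defining associative operations: a Fox calculus argument
-/

set_option autoImplicit false

namespace Pool.Agent.Q25.NW

/-- The value of the word `w` at `x, y`. -/
def ev {G : Type*} [Group G] (w : FreeGroup (Fin 2)) (x y : G) : G := FreeGroup.lift ![x, y] w

/-- The group of the affine maps `t ↦ u t + m` of a ring. -/
structure Aff (R : Type*) [Ring R] where
  /-- the linear part -/
  u : Rˣ
  /-- the translation part -/
  m : R

namespace Aff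

variable {R : Type*} [Ring R]

theorem ext' {g h : Aff R} (h1 : g.u = h.u) (h2 : g.m = h.m) : g = h := by
  cases g; cases h; simp_all

instance : Mul (Aff R) := ⟨fun g h => ⟨g.u * h.u, g.m + g.u * h.m⟩⟩
instance : One (Aff R) := ⟨⟨1, 0⟩⟩
instance : Inv (Aff R) := ⟨fun g => ⟨g.u⁻¹, -(↑(g.u⁻¹) * g.m)⟩⟩

@[simp] theorem mul_u (g h : Aff R) : (g * h).u = g.u * h.u := rfl
@[simp] theorem mul_m (g h : Aff R) : (g * h).m = g.m + g.u * h.m := rfl
@[simp] theorem one_u : (1 : Aff R).u = 1 := rfl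
@[simp] theorem one_m : (1 : Aff R).m = 0 := rfl
@[simp] theorem inv_u (g : Aff R) : (g⁻¹).u = g.u⁻¹ := rfl
@[simp] theorem inv_m (g : Aff R) : (g⁻¹).m = -(↑(g.u⁻¹) * g.m) := rfl

instance : Group (Aff R) := Group.ofLeftAxioms
  (fun a b c => ext' (by simp [mul_assoc]) (by simp [mul_add, mul_assoc, add_assoc]))
  (fun a => ext' (by simp) (by simp))
  (fun a => ext' (by simp) (by simp))

/-- The linear part. -/
def uHom : Aff R →* Rˣ where
  toFun g := g.u
  map_one' := rfl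
  map_mul' _ _ := rfl

/-- The maps without translation part. -/
def linHom : Rˣ →* Aff R where
  toFun x := ⟨x, 0⟩
  map_one' := rfl
  map_mul' x y := ext' (by simp) (by simp)

/-- The inner crossed homomorphism. -/
def inHom : Rˣ →* Aff R where
  toFun x := ⟨x, x - 1⟩
  map_one' := ext' (by simp) (by simp)
  map_mul' x y := ext' (by simp) (by simp [mul_sub])

/-- Functoriality. -/
def map {S : Type*} [Ring S] (f : R →+* S) : Aff R →* Aff S where
  toFun g := ⟨Units.map f g.u, f g.m⟩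
  map_one' := ext' (by simp) (by simp)
  map_mul' x y := ext' (by simp) (by simp)

end Aff

section
variable {G H : Type*} [Group G] [Group H]

theorem map_ev (f : G →* H) (w : FreeGroup (Fin 2)) (x y : G) :
    f (ev w x y) = ev w (f x) (f y) := by
  unfold ev
  have h : f.comp (FreeGroup.lift ![x, y]) = FreeGroup.lift ![f x, f y] := by
    apply FreeGroup.ext_hom
    intro i
    fin_cases i <;> simp
  exact DFunLike.congr_fun h w

theorem ev_mul (v w : FreeGroup (Fin 2)) (x y : G) : ev (v * w) x y = ev v x y * ev w x y :=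
  map_mul _ _ _

theorem ev_self (w : FreeGroup (Fin 2)) : ev w (FreeGroup.of 0) (FreeGroup.of 1) = w := by
  unfold ev
  have h : FreeGroup.lift ![FreeGroup.of (0 : Fin 2), FreeGroup.of 1] = MonoidHom.id _ := by
    apply FreeGroup.ext_hom
    intro i
    fin_cases i <;> simp
  rw [h]; rfl

theorem ev_comm {A : Type*} [CommGroup A] (w : FreeGroup (Fin 2)) (x y : A) :
    ev w x y = ev w x 1 * ev w 1 y := by
  induction w using FreeGroup.induction_on with
  | C1 => simp [ev]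
  | of i => fin_cases i <;> simp [ev]
  | inv_of i _ => fin_cases i <;> simp [ev]
  | mul v w hv hw => rw [ev_mul, ev_mul, ev_mul, hv, hw]; exact mul_mul_mul_comm _ _ _ _

end

section
variable {R : Type*} [Ring R]

theorem ev_u (w : FreeGroup (Fin 2)) (g h : Aff R) : (ev w g h).u = ev w g.u h.u :=
  map_ev Aff.uHom w g h

theorem ev_lin (w : FreeGroup (Fin 2)) (x y : Rˣ) (r s : R) :
    (ev w (⟨x, r⟩ : Aff R) ⟨y, s⟩).m =
      (ev w (⟨x, 1⟩ : Aff R) ⟨y, 0⟩).m * r + (ev w (⟨x, 0⟩ : Aff R) ⟨y, 1⟩).m * s := by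
  induction w using FreeGroup.induction_on with
  | C1 => simp [ev]
  | of i => fin_cases i <;> simp [ev]
  | inv_of i _ => fin_cases i <;> simp [ev]
  | mul v w hv hw =>
    rw [ev_mul, ev_mul, ev_mul, Aff.mul_m, Aff.mul_m, Aff.mul_m, hv, hw, ev_u, ev_u, ev_u]
    simp only [mul_add, add_mul, mul_assoc]
    abel

/-- The second Fox derivative. -/
def B (w : FreeGroup (Fin 2)) (x y : Rˣ) : R := (ev w (⟨x, 0⟩ : Aff R) ⟨y, 1⟩).m

/-- The first Fox derivative. -/
def A (w : FreeGroup (Fin 2)) (x y : Rˣ) : R := (ev w (⟨x, 1⟩ : Aff R) ⟨y, 0⟩).m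

theorem fund (w : FreeGroup (Fin 2)) (x y : Rˣ) :
    ((ev w x y : Rˣ) : R) - 1 = A w x y * (x - 1) + B w x y * (y - 1) := by
  have h := map_ev Aff.inHom w x y
  have h2 := congrArg Aff.m h
  have h3 : (Aff.inHom (ev w x y)).m = ((ev w x y : Rˣ) : R) - 1 := rfl
  rw [← h3, h2]
  exact ev_lin w x y _ _

theorem map_B {S : Type*} [Ring S] (f : R →+* S) (w : FreeGroup (Fin 2)) (x y : Rˣ) :
    f (B w x y) = B w (Units.map f x) (Units.map f y) := by
  have h := congrArg Aff.m (map_ev (Aff.map f) w (⟨x, 0⟩ : Aff R) ⟨y, 1⟩)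
  have h3 : (Aff.map f (ev w (⟨x, 0⟩ : Aff R) ⟨y, 1⟩)).m = f (B w x y) := rfl
  rw [← h3, h]
  have h4 : Aff.map f ⟨x, 0⟩ = ⟨Units.map f x, 0⟩ := Aff.ext' rfl (map_zero f)
  have h5 : Aff.map f ⟨y, 1⟩ = ⟨Units.map f y, 1⟩ := Aff.ext' rfl (map_one f)
  rw [h4, h5]
  rfl

/-- The cocycle identity. -/
theorem cocycle {w : FreeGroup (Fin 2)}
    (hI : ∀ a b c : Aff R, ev w (ev w a b) c = ev w a (ev w b c)) (x y z : Rˣ) :
    B w (ev w x y) z = B w x (ev w y z) * B w y z := by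
  have h := congrArg Aff.m (hI ⟨x, 0⟩ ⟨y, 0⟩ ⟨z, 1⟩)
  have h1 : ev w (⟨x, 0⟩ : Aff R) ⟨y, 0⟩ = ⟨ev w x y, 0⟩ := (map_ev Aff.linHom w x y).symm
  have h2 : ev w (⟨y, 0⟩ : Aff R) ⟨z, 1⟩ = ⟨ev w y z, B w y z⟩ :=
    Aff.ext' (ev_u w _ _) rfl
  rw [h1, h2, ev_lin w x (ev w y z)] at h
  simpa [B] using h

end

/-- A unit of the Laurent polynomial ring over the integers is up to sign a power of `T`. -/
theorem laurent_unit {P Q : LaurentPolynomial ℤ} (h : Q * P = 1) :
    ∃ m : ℤ, P = LaurentPolynomial.T m ∨ P = -LaurentPolynomial.T m := by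
  obtain ⟨n, p, hp⟩ := LaurentPolynomial.exists_T_pow P
  obtain ⟨k, q, hq⟩ := LaurentPolynomial.exists_T_pow Q
  have h1 : Polynomial.toLaurent (q * p) = Polynomial.toLaurent (Polynomial.X ^ (k + n) : Polynomial ℤ) := by
    rw [map_mul, hp, hq, Polynomial.toLaurent_X_pow]
    have : Q * LaurentPolynomial.T (k : ℤ) * (P * LaurentPolynomial.T (n : ℤ))
        = (Q * P) * (LaurentPolynomial.T (k : ℤ) * LaurentPolynomial.T (n : ℤ)) := by ring
    rw [this, h, one_mul, ← LaurentPolynomial.T_add]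
    push_cast
    rfl
  have h2 : q * p = Polynomial.X ^ (k + n) := Polynomial.toLaurent_injective h1
  have h3 : p ∣ Polynomial.X ^ (k + n) := Dvd.intro_left q h2
  obtain ⟨i, _, hi⟩ := (dvd_prime_pow Polynomial.prime_X _).1 h3
  obtain ⟨v, hv⟩ := hi.symm
  have h4 : IsUnit (v : Polynomial ℤ) := v.isUnit
  obtain ⟨r, hr, hr2⟩ := Polynomial.isUnit_iff.1 h4
  have h5 : P = Polynomial.toLaurent p * LaurentPolynomial.T (-(n : ℤ)) := by
    rw [hp, mul_assoc, ← LaurentPolynomial.T_add]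
    simp
  rcases Int.isUnit_iff.1 hr with h6 | h6
  · refine ⟨i - n, Or.inl ?_⟩
    rw [h5, ← hv, ← hr2, h6]
    rw [Polynomial.C_1, mul_one, Polynomial.toLaurent_X_pow, ← LaurentPolynomial.T_add]
    rfl
  · refine ⟨i - n, Or.inr ?_⟩
    rw [h5, ← hv, ← hr2, h6]
    have : (Polynomial.C (-1 : ℤ)) = -1 := by simp
    rw [this, mul_neg, mul_one, map_neg, Polynomial.toLaurent_X_pow, neg_mul, ← LaurentPolynomial.T_add]
    rfl

end Pool.Agent.Q25.NW
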