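import Pool.Agent.Q25.NW.Fox

/-!
# The two words
-/

set_option autoImplicit false

namespace Pool.Agent.Q25.NW

/-- `w` is an associative law in all groups, with `1` as the identity. -/
structure Law (w : FreeGroup (Fin 2)) : Prop where
  assoc : ∀ (G : Type) [Group G] (a b c : G), ev w (ev w a b) c = ev w a (ev w b c)
  one_r : ∀ (G : Type) [Group G] (a : G), ev w a 1 = a
  one_l : ∀ (G : Type) [Group G] (a : G), ev w 1 a = a

/-- The opposite word. -/
def opw (w : FreeGroup (Fin 2)) : FreeGroup (Fin 2) := ev w (FreeGroup.of 1) (FreeGroup.of 0)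

theorem ev_opw {G : Type*} [Group G] (w : FreeGroup (Fin 2)) (x y : G) :
    ev (opw w) x y = ev w y x := by
  have h := map_ev (FreeGroup.lift ![x, y]) w (FreeGroup.of 1) (FreeGroup.of 0)
  have h2 : ev (opw w) x y = FreeGroup.lift ![x, y] (ev w (FreeGroup.of 1) (FreeGroup.of 0)) := rfl
  rw [h2, h]
  simp

theorem Law.op {w : FreeGroup (Fin 2)} (h : Law w) : Law (opw w) where
  assoc G _ a b c := by
    simp only [ev_opw]
    exact (h.assoc G c b a).symm
  one_r G _ a := by rw [ev_opw]; exact h.one_l G a
  one_l G _ a := by rw [ev_opw]; exact h.one_r G a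

theorem Law.P_eq {w : FreeGroup (Fin 2)} (h : Law w) :
    ∃ m : ℤ, (B w (LaurentPolynomial.isUnit_T (R := ℤ) 1).unit 1) = LaurentPolynomial.T (R := ℤ) m := by
  set t : (LaurentPolynomial ℤ)ˣ := (LaurentPolynomial.isUnit_T (R := ℤ) 1).unit with ht
  have h1 := cocycle (R := LaurentPolynomial ℤ) (h.assoc _) t⁻¹ t 1
  have h2 : ev w t⁻¹ t = 1 := by
    rw [ev_comm, h.one_r, h.one_l]; simp
  have h3 : ∀ (R : Type) [Ring R], B w (1 : Rˣ) 1 = 1 := by
    intro R _
    unfold B
    have : (⟨1, 0⟩ : Aff R) = 1 := rfl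
    rw [this, h.one_l]
  rw [h2, h3, h.one_r] at h1
  obtain ⟨m, hm | hm⟩ := laurent_unit h1.symm
  · exact ⟨m, hm⟩
  · exfalso
    have h4 := map_B (LaurentPolynomial.eval₂ (RingHom.id ℤ) (1 : ℤˣ)) w t 1
    have h5 : Units.map (LaurentPolynomial.eval₂ (RingHom.id ℤ) (1 : ℤˣ)).toMonoidHom t = 1 := by
      apply Units.ext
      have : (t : LaurentPolynomial ℤ) = LaurentPolynomial.T 1 := rfl
      simp [this]
    have h6 : Units.map (LaurentPolynomial.eval₂ (RingHom.id ℤ) (1 : ℤˣ)).toMonoidHom 1 = 1 := map_one _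
    rw [hm] at h4
    have h7 : B w (Units.map (LaurentPolynomial.eval₂ (RingHom.id ℤ) (1 : ℤˣ)).toMonoidHom t)
        (Units.map (LaurentPolynomial.eval₂ (RingHom.id ℤ) (1 : ℤˣ)).toMonoidHom 1) = 1 := by
      rw [h5, h6, h3]
    have h8 := h4.trans h7
    rw [map_neg, LaurentPolynomial.eval₂_T] at h8
    simp at h8

theorem Law.B_eq {w : FreeGroup (Fin 2)} (h : Law w) :
    ∃ m : ℤ, ∀ (R : Type) [Ring R] (x y : Rˣ), B w x y = ((ev w x y) ^ m * y ^ (-m) : Rˣ) := by
  obtain ⟨m, hm⟩ := h.P_eq
  refine ⟨m, fun R _ x y => ?_⟩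
  have key : ∀ x : Rˣ, B w x 1 = ((x ^ m : Rˣ) : R) := by
    intro x
    let f : Multiplicative ℤ →* R := (Units.coeHom R).comp (zpowersHom Rˣ x)
    let F : LaurentPolynomial ℤ →+* R := (AddMonoidAlgebra.lift ℤ R ℤ f).toRingHom
    have hF : ∀ k : ℤ, F (LaurentPolynomial.T k) = ((x ^ k : Rˣ) : R) := by
      intro k
      have : F (LaurentPolynomial.T k) = AddMonoidAlgebra.lift ℤ R ℤ f (AddMonoidAlgebra.single k 1) := rfl
      rw [this, AddMonoidAlgebra.lift_single]
      simp [f]
    have h4 := map_B F w (LaurentPolynomial.isUnit_T (R := ℤ) 1).unit 1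
    rw [hm, hF] at h4
    rw [h4]
    congr 1
    · apply Units.ext
      have : ((Units.map (F : LaurentPolynomial ℤ →* R) (LaurentPolynomial.isUnit_T (R := ℤ) 1).unit : Rˣ) : R)
        = F (LaurentPolynomial.T 1) := rfl
      rw [this, hF]
      simp
    · exact (map_one _).symm
  have h1 := cocycle (R := R) (h.assoc _) x y 1
  rw [h.one_r, key, key] at h1
  rw [Units.val_mul, h1, mul_assoc, ← Units.val_mul, ← zpow_add]
  simp

theorem Law.A_eq {w : FreeGroup (Fin 2)} (h : Law w) :
    ∃ m : ℤ, ∀ (R : Type) [Ring R] (x y : Rˣ), A w x y = ((ev w x y) ^ m * x ^ (-m) : Rˣ) := by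
  obtain ⟨m, hm⟩ := h.op.B_eq
  refine ⟨m, fun R _ x y => ?_⟩
  rw [← ev_opw, ← hm R y x]
  unfold A B
  rw [ev_opw]

/-- The only words which are associative laws with identity `1` are `ab` and `ba`. -/
theorem Law.eq {w : FreeGroup (Fin 2)} (h : Law w) :
    w = FreeGroup.of 0 * FreeGroup.of 1 ∨ w = FreeGroup.of 1 * FreeGroup.of 0 := by
  obtain ⟨m, hm⟩ := h.B_eq
  obtain ⟨n, hn⟩ := h.A_eq
  let F := FreeGroup (Fin 2)
  let R := MonoidAlgebra ℤ F
  let ι : F →* Rˣ := (Units.map (MonoidAlgebra.of ℤ F)).comp (toUnits (G := F)).toMonoidHom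
  have hι : ∀ g : F, ((ι g : Rˣ) : R) = MonoidAlgebra.single g 1 := fun g => rfl
  have h1 := fund (R := R) w (ι (FreeGroup.of 0)) (ι (FreeGroup.of 1))
  have h2 : ev w (ι (FreeGroup.of 0)) (ι (FreeGroup.of 1)) = ι w := by
    rw [← map_ev, ev_self]
  rw [hn R, hm R, h2] at h1
  set a : F := FreeGroup.of 0 with ha
  set b : F := FreeGroup.of 1 with hb
  set p : F := w ^ n * a ^ (-n) with hp
  set q : F := w ^ m * b ^ (-m) with hq
  have h3 : ι w ^ n * ι a ^ (-n) = ι p := by simp [hp]
  have h4 : ι w ^ m * ι b ^ (-m) = ι q := by simp [hq]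
  rw [h3, h4, mul_sub, mul_sub, mul_one, mul_one, ← Units.val_mul, ← Units.val_mul, ← map_mul, ← map_mul] at h1
  have h5 : ((ι w : Rˣ) : R) + (ι p : Rˣ) + (ι q : Rˣ) = (ι (1 : F) : Rˣ) + (ι (p * a) : Rˣ) + (ι (q * b) : Rˣ) := by
    rw [map_one, Units.val_one]
    have : ((ι w : Rˣ) : R) = (ι w : Rˣ) - 1 + 1 := by simp
    rw [this, h1]
    abel
  simp only [hι] at h5
  have ha1 : a ≠ 1 := FreeGroup.of_ne_one 0
  have hb1 : b ≠ 1 := FreeGroup.of_ne_one 1
  have hw1 : w ≠ 1 := by
    intro hw
    have := h.one_r F a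
    rw [hw] at this
    exact ha1 (by simpa [ev] using this.symm)
  have ev1 : ∀ g : F, ((if w = g then (1 : ℤ) else 0) + (if p = g then 1 else 0) + (if q = g then 1 else 0))
      = (if 1 = g then 1 else 0) + (if p * a = g then 1 else 0) + (if q * b = g then 1 else 0) := by
    intro g
    have := congrArg (fun z : MonoidAlgebra ℤ (FreeGroup (Fin 2)) => z.coeff g) h5
    simp only [MonoidAlgebra.coeff_add, Finsupp.add_apply, MonoidAlgebra.coeff_single,
      Finsupp.single_apply, R, F] at this
    exact this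
  have hpa : p * a ≠ p := by simpa using ha1
  have hqb : q * b ≠ q := by simpa using hb1
  by_cases c1 : p * a = w
  · right
    have ev2 : ∀ g : F, ((if p = g then (1 : ℤ) else 0) + (if q = g then 1 else 0))
        = (if 1 = g then 1 else 0) + (if q * b = g then 1 else 0) := by
      intro g
      have := ev1 g
      rw [c1] at this
      linarith
    by_cases c2 : 1 = p
    · exfalso
      have ev3 : ∀ g : F, (if q = g then (1 : ℤ) else 0) = (if q * b = g then 1 else 0) := by
        intro g
        have := ev2 g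
        rw [← c2] at this
        linarith
      have := ev3 q
      rw [if_pos rfl, if_neg hqb] at this
      omega
    · have e := ev2 p
      rw [if_pos rfl, if_neg c2] at e
      have c3 : q * b = p := by
        by_contra hne
        rw [if_neg hne] at e
        split_ifs at e <;> omega
      have ev3 : ∀ g : F, (if q = g then (1 : ℤ) else 0) = (if 1 = g then 1 else 0) := by
        intro g
        have := ev2 g
        rw [c3] at this
        linarith
      have e2 := ev3 q
      rw [if_pos rfl] at e2
      have c4 : 1 = q := by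
        by_contra hne
        rw [if_neg hne] at e2
        omega
      rw [← c1, ← c3, ← c4, one_mul]
  · by_cases c0 : q * b = w
    · left
      have ev2 : ∀ g : F, ((if p = g then (1 : ℤ) else 0) + (if q = g then 1 else 0))
          = (if 1 = g then 1 else 0) + (if p * a = g then 1 else 0) := by
        intro g
        have := ev1 g
        rw [c0] at this
        linarith
      by_cases c2 : 1 = q
      · exfalso
        have ev3 : ∀ g : F, (if p = g then (1 : ℤ) else 0) = (if p * a = g then 1 else 0) := by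
          intro g
          have := ev2 g
          rw [← c2] at this
          linarith
        have := ev3 p
        rw [if_pos rfl, if_neg hpa] at this
        omega
      · have e := ev2 q
        rw [if_pos rfl, if_neg c2] at e
        have c3 : p * a = q := by
          by_contra hne
          rw [if_neg hne] at e
          split_ifs at e <;> omega
        have ev3 : ∀ g : F, (if p = g then (1 : ℤ) else 0) = (if 1 = g then 1 else 0) := by
          intro g
          have := ev2 g
          rw [c3] at this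
          linarith
        have e2 := ev3 p
        rw [if_pos rfl] at e2
        have c4 : 1 = p := by
          by_contra hne
          rw [if_neg hne] at e2
          omega
        rw [← c0, ← c3, ← c4, one_mul]
    · exfalso
      have e := ev1 w
      rw [if_pos rfl, if_neg c1, if_neg c0, if_neg (Ne.symm hw1)] at e
      split_ifs at e <;> omega

end Pool.Agent.Q25.NW
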